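import Pool.Agent.H65.ParaP12

set_option autoImplicit false

universe u v

theorem Pool.Agent.Results.MP_b9ac25_al.Implies.result (Γ : Type u) [Group Γ]
    (h : ∃ X : Type v, ∀ j : ℕ, Nonempty (Γ ⧸ (⊤ : Subgroup Γ).lowerCentralSeries j ≃*
      FreeGroup X ⧸ (⊤ : Subgroup (FreeGroup X)).lowerCentralSeries j)) :
    ∃ (X : Type v) (φ : FreeGroup X →* Γ), ∀ j : ℕ,
      ∃ e : FreeGroup X ⧸ (⊤ : Subgroup (FreeGroup X)).lowerCentralSeries j ≃*
        Γ ⧸ (⊤ : Subgroup Γ).lowerCentralSeries j,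
      ∀ x : FreeGroup X, e (QuotientGroup.mk x) = QuotientGroup.mk (φ x) := by
  obtain ⟨X, h⟩ := h
  exact ⟨X, Pool.Agent.H65.ParaP12.main Γ X h⟩
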